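import Pool.Agent.FLX.Stmts

/-!
# NLE: estimates for the nonlinearity
-/

set_option autoImplicit false

open scoped InnerProductSpace Topology ContDiff Manifold
open MeasureTheory Filter Set

noncomputable section

namespace Pool.Agent.FLX.H3

open Pool.Agent.Helper42_Paneitz Pool.Agent.Helper82_Vir

theorem exp_le3 {t : ℝ} (h : t ≤ 1) : Real.exp t ≤ 3 :=
  (Real.exp_le_exp.2 h).trans (Real.exp_one_lt_d9.le.trans (by norm_num))

theorem exp_sub_le (a b : ℝ) : Real.exp a - Real.exp b ≤ Real.exp a * (a - b) := by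
  have h1 : Real.exp b = Real.exp a * Real.exp (b - a) := by
    rw [← Real.exp_add]
    congr 1
    ring
  have h2 := Real.add_one_le_exp (b - a)
  have h3 := Real.exp_pos a
  rw [h1]
  nlinarith

theorem abs_exp_sub {a b : ℝ} (ha : |a| ≤ 1) (hb : |b| ≤ 1) :
    |Real.exp a - Real.exp b| ≤ 3 * |a - b| := by
  have h1 := exp_sub_le a b
  have h2 := exp_sub_le b a
  have h3 := exp_le3 (abs_le.1 ha).2
  have h4 := exp_le3 (abs_le.1 hb).2
  have h5 := Real.exp_pos a
  have h6 := Real.exp_pos b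
  have h7 := le_abs_self (a - b)
  have h8 := neg_abs_le (a - b)
  have h9 := abs_nonneg (a - b)
  rw [abs_le]
  constructor <;> nlinarith

theorem abs_exp_sub_lin {a b r : ℝ} (ha : |Real.exp a - 1| ≤ r) (hb : |Real.exp b - 1| ≤ r) :
    |Real.exp a - Real.exp b - (a - b)| ≤ r * |a - b| := by
  have h1 := exp_sub_le a b
  have h2 := exp_sub_le b a
  have hr : 0 ≤ r := (abs_nonneg _).trans ha
  have h3 : |(Real.exp a - 1) * (a - b)| ≤ r * |a - b| := by
    rw [abs_mul]
    exact mul_le_mul_of_nonneg_right ha (abs_nonneg _)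
  have h4 : |(Real.exp b - 1) * (a - b)| ≤ r * |a - b| := by
    rw [abs_mul]
    exact mul_le_mul_of_nonneg_right hb (abs_nonneg _)
  have h5 := abs_le.1 h3
  have h6 := abs_le.1 h4
  rw [abs_le]
  constructor
  · linarith [h6.1]
  · linarith [h5.2]

theorem N2_nonneg (f : S4 → ℝ) : 0 ≤ N2 f := Real.sqrt_nonneg _

theorem N2_sq (f : S4 → ℝ) : N2 f ^ 2 = ∫ y, f y ^ 2 ∂sig :=
  Real.sq_sqrt (integral_nonneg fun _ => sq_nonneg _)

/-- comparison -/
theorem N2_le {F q : S4 → ℝ} {a b : ℝ} (hF : Continuous F) (hq : Continuous q) (ha : 0 ≤ a)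
    (hb : 0 ≤ b) (h : ∀ x, |F x| ≤ a * |q x| + b) : N2 F ≤ 2 * (a * N2 q + b * √msig) := by
  have hm := msig_pos
  have h0 : 0 ≤ 2 * (a * N2 q + b * √msig) := by
    have := N2_nonneg q
    positivity
  rw [← abs_of_nonneg (N2_nonneg F), ← abs_of_nonneg h0]
  apply sq_le_sq.1
  rw [N2_sq]
  have h1 : ∀ x, F x ^ 2 ≤ 2 * a ^ 2 * q x ^ 2 + 2 * b ^ 2 := by
    intro x
    have h2 : F x ^ 2 ≤ (a * |q x| + b) ^ 2 := by
      rw [← sq_abs (F x)]
      exact pow_le_pow_left₀ (abs_nonneg _) (h x) 2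
    have h3 : |q x| ^ 2 = q x ^ 2 := sq_abs _
    nlinarith [sq_nonneg (a * |q x| - b)]
  have h4 : ∫ y, F y ^ 2 ∂sig ≤ 2 * a ^ 2 * N2 q ^ 2 + 2 * b ^ 2 * msig := by
    calc ∫ y, F y ^ 2 ∂sig ≤ ∫ y, (2 * a ^ 2 * q y ^ 2 + 2 * b ^ 2) ∂sig := by
          refine integral_mono (integrable_cont (hF.pow 2)) (integrable_cont ?_) h1
          fun_prop
      _ = 2 * a ^ 2 * N2 q ^ 2 + 2 * b ^ 2 * msig := by
          rw [integral_add (integrable_cont (by fun_prop)) (integrable_cont (by fun_prop)),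
            integral_const_mul, N2_sq, integral_const_sig]
          ring
  have h5 : √msig ^ 2 = msig := Real.sq_sqrt hm.le
  have h6 : 0 ≤ a * N2 q * (b * √msig) := by
    have := N2_nonneg q
    positivity
  nlinarith [sq_nonneg (a * N2 q), sq_nonneg (b * √msig)]

/-- Cauchy-Schwarz -/
theorem integral_abs_le {q : S4 → ℝ} (hq : Continuous q) :
    ∫ y, |q y| ∂sig ≤ √msig * N2 q := by
  have hm := msig_pos
  obtain ⟨I, hI⟩ : ∃ I, I = ∫ y, |q y| ∂sig := ⟨_, rfl⟩
  have hI0 : 0 ≤ I := by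
    rw [hI]
    exact integral_nonneg fun _ => abs_nonneg _
  have h1 : 0 ≤ ∫ y, (|q y| - I / msig) ^ 2 ∂sig := integral_nonneg fun _ => sq_nonneg _
  have h2 : ∫ y, (|q y| - I / msig) ^ 2 ∂sig = N2 q ^ 2 - I ^ 2 / msig := by
    have e : ∀ y, (|q y| - I / msig) ^ 2 = (q y ^ 2 - 2 * (I / msig) * |q y|) +
        (I / msig) ^ 2 := by
      intro y
      have h3 : |q y| ^ 2 = q y ^ 2 := sq_abs _
      rw [← h3]
      ring
    simp_rw [e]
    rw [integral_add (integrable_cont (by fun_prop)) (integrable_cont (by fun_prop)),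
      integral_sub (integrable_cont (by fun_prop)) (integrable_cont (by fun_prop)),
      integral_const_mul, integral_const_sig, ← N2_sq, ← hI]
    field_simp
    ring
  rw [h2] at h1
  have h3 : I ^ 2 ≤ (√msig * N2 q) ^ 2 := by
    rw [mul_pow, Real.sq_sqrt hm.le]
    have h4 : I ^ 2 / msig ≤ N2 q ^ 2 := by linarith
    rw [div_le_iff₀ hm] at h4
    linarith
  rw [← hI]
  exact (pow_le_pow_iff_left₀ hI0 (mul_nonneg (Real.sqrt_nonneg _) (N2_nonneg _))
    two_ne_zero).1 h3

/-- pointwise estimates -/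
theorem pt {R t : ℝ} (hR4 : R ≤ 1 / 4) (ht : |t| ≤ R) :
    |4 * t| ≤ 1 ∧ |Real.exp (4 * t) - 1| ≤ 8 * R ∧ Real.exp (4 * t) ≤ 3 ∧
      |Real.exp (4 * t) - 1 - 4 * t| ≤ 16 * R ^ 2 := by
  have h0 : |4 * t| = 4 * |t| := by
    rw [abs_mul]
    norm_num
  have h1 : |4 * t| ≤ 1 := by
    rw [h0]
    linarith
  have h2 := Real.abs_exp_sub_one_le h1
  have h3 := Real.abs_exp_sub_one_sub_id_le h1
  refine ⟨h1, ?_, exp_le3 (abs_le.1 h1).2, h3.trans ?_⟩
  · rw [h0] at h2
    linarith
  · rw [← sq_abs (4 * t), h0]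
    nlinarith [abs_nonneg t]

/-- NLE -/
theorem nle : NleStmt := by
  have hm := msig_pos
  have hs : 0 ≤ √msig := Real.sqrt_nonneg _
  refine ⟨400 * (1 + √msig + msig), by positivity, ?_⟩
  intro q h h' R D hq hh hh' hR hR4 hhR hhR' hD
  have hN := N2_nonneg q
  have hx0 : Nonempty S4 :=
    ⟨⟨EuclideanSpace.single 0 1, mem_sphere_zero_iff_norm.2 (by simp)⟩⟩
  obtain ⟨x0⟩ := hx0
  have hD0 : 0 ≤ D := (abs_nonneg _).trans (hD x0)
  have hR2 : 0 ≤ R ^ 2 := sq_nonneg R
  have cN : ∀ g : S4 → ℝ, Continuous g → Continuous (Nn q g) := by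
    intro g hg
    unfold Nn
    fun_prop
  have hNle : N2 q * 1 ≤ N2 q * (1 + √msig + msig) :=
    mul_le_mul_of_nonneg_left (by linarith) hN
  refine ⟨?_, ?_, ?_⟩
  · have h1 : ∀ x, |Nn q h x| ≤ 3 * |q x| + 96 * R ^ 2 := by
      intro x
      obtain ⟨_, _, p3, p4⟩ := pt hR4 (hhR x)
      have e : Nn q h x = q x * Real.exp (4 * h x) +
          6 * (Real.exp (4 * h x) - 1 - 4 * h x) := by
        unfold Nn
        ring
      rw [e]
      refine (abs_add_le _ _).trans ?_
      have a1 : |q x * Real.exp (4 * h x)| ≤ 3 * |q x| := by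
        rw [abs_mul, abs_of_pos (Real.exp_pos _)]
        nlinarith [abs_nonneg (q x)]
      have a2 : |6 * (Real.exp (4 * h x) - 1 - 4 * h x)| ≤ 96 * R ^ 2 := by
        rw [abs_mul]
        norm_num
        linarith
      linarith
    have h2 := N2_le (cN h hh) hq (by norm_num) (by positivity) h1
    refine h2.trans ?_
    have b1 : R ^ 2 * √msig ≤ R ^ 2 * (1 + √msig + msig) :=
      mul_le_mul_of_nonneg_left (by linarith) hR2
    nlinarith
  · have h1 : ∀ x, |Nn q h x - Nn q h' x| ≤ (12 * D) * |q x| + 192 * R * D := by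
      intro x
      obtain ⟨p1, p2, _, _⟩ := pt hR4 (hhR x)
      obtain ⟨r1, r2, _, _⟩ := pt hR4 (hhR' x)
      have e : Nn q h x - Nn q h' x = q x * (Real.exp (4 * h x) - Real.exp (4 * h' x)) +
          6 * (Real.exp (4 * h x) - Real.exp (4 * h' x) - (4 * h x - 4 * h' x)) := by
        unfold Nn
        ring
      have e2 : |4 * h x - 4 * h' x| ≤ 4 * D := by
        rw [← mul_sub, abs_mul]
        norm_num
        linarith [hD x]
      have a0 := abs_exp_sub p1 r1
      have a1 : |q x * (Real.exp (4 * h x) - Real.exp (4 * h' x))| ≤ (12 * D) * |q x| := by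
        rw [abs_mul]
        nlinarith [abs_nonneg (q x)]
      have a3 := abs_exp_sub_lin p2 r2
      have a4 : 8 * R * |4 * h x - 4 * h' x| ≤ 8 * R * (4 * D) :=
        mul_le_mul_of_nonneg_left e2 (by positivity)
      have a2 : |6 * (Real.exp (4 * h x) - Real.exp (4 * h' x) - (4 * h x - 4 * h' x))| ≤
          192 * R * D := by
        rw [abs_mul]
        norm_num
        linarith
      rw [e]
      refine (abs_add_le _ _).trans ?_
      linarith
    have h2 := N2_le ((cN h hh).sub (cN h' hh')) hq (by positivity) (by positivity) h1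
    refine h2.trans ?_
    have b1 : R * D * √msig ≤ R * D * (1 + √msig + msig) :=
      mul_le_mul_of_nonneg_left (by linarith) (by positivity)
    have b2 : N2 q * D * 1 ≤ N2 q * D * (1 + √msig + msig) :=
      mul_le_mul_of_nonneg_left (by linarith) (by positivity)
    have b3 : 0 ≤ R * D * (1 + √msig + msig) := by positivity
    have b4 : 0 ≤ N2 q * D * (1 + √msig + msig) := by positivity
    nlinarith
  · have hi : ∀ g : S4 → ℝ, Continuous g → Integrable (fun y : S4 => g y • (y : E5)) sig := by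
      intro g hg
      have hc : Continuous fun y : S4 => g y • (y : E5) := hg.smul continuous_subtype_val
      exact hc.integrable_of_hasCompactSupport (HasCompactSupport.of_compactSpace _)
    rw [← integral_sub (hi _ (cN h hh)) (hi _ hq)]
    have h1 : ∀ y : S4, ‖Nn q h y • (y : E5) - q y • (y : E5)‖ ≤ 8 * R * |q y| + 96 * R ^ 2 := by
      intro y
      obtain ⟨_, p2, _, p4⟩ := pt hR4 (hhR y)
      have hy : ‖(y : E5)‖ = 1 := mem_sphere_zero_iff_norm.1 y.2
      rw [← sub_smul, norm_smul, hy, mul_one, Real.norm_eq_abs]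
      have e : Nn q h y - q y = q y * (Real.exp (4 * h y) - 1) +
          6 * (Real.exp (4 * h y) - 1 - 4 * h y) := by
        unfold Nn
        ring
      rw [e]
      refine (abs_add_le _ _).trans ?_
      have a1 : |q y * (Real.exp (4 * h y) - 1)| ≤ 8 * R * |q y| := by
        rw [abs_mul]
        nlinarith [abs_nonneg (q y)]
      have a2 : |6 * (Real.exp (4 * h y) - 1 - 4 * h y)| ≤ 96 * R ^ 2 := by
        rw [abs_mul]
        norm_num
        linarith
      linarith
    have hc2 : Continuous fun y : S4 => 8 * R * |q y| + 96 * R ^ 2 := by fun_prop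
    refine (norm_integral_le_of_norm_le (integrable_cont hc2) (Eventually.of_forall h1)).trans ?_
    rw [integral_add (integrable_cont (by fun_prop)) (integrable_cont (by fun_prop)),
      integral_const_mul, integral_const_sig]
    have h2 := integral_abs_le hq
    have h3 : 8 * R * ∫ y, |q y| ∂sig ≤ 8 * R * (√msig * N2 q) :=
      mul_le_mul_of_nonneg_left h2 (by positivity)
    have b1 : R * N2 q * √msig ≤ R * N2 q * (1 + √msig + msig) :=
      mul_le_mul_of_nonneg_left (by linarith) (by positivity)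
    have b2 : R ^ 2 * msig ≤ R ^ 2 * (1 + √msig + msig) :=
      mul_le_mul_of_nonneg_left (by linarith) (by positivity)
    have b3 : 0 ≤ R * N2 q * (1 + √msig + msig) := by positivity
    have b4 : 0 ≤ R ^ 2 * (1 + √msig + msig) := by positivity
    nlinarith

end Pool.Agent.FLX.H3
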